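import Pool.Agent.X252.TPE
import Pool.Agent.X282.KRB.Final

open scoped Classical

namespace Pool.Agent.Results.MP_6a3f1a_al.ApproximateWeights

open Pool.Agent.Y63.NV Pool.Agent.X252.TP

/-- Let `X` be a class of groups closed under isomorphisms, subgroups, quotients by normal
`p`-subgroups and direct squares. The blockwise alternating sum formula of Knörr and Robinson holds for
all finite groups `Γ` which have a normal subgroup `G` in `X` such that `Γ/G` is a `p`-group, if and
only if the number of simple modules and the number of classes of weights of a block agree up to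
factors `|H|^{o(1)}` for the finite groups `H` in `X` without normal subgroups of index `p` and
without non-trivial normal `p`-subgroups. -/
theorem result (p : ℕ) [Fact p.Prime] (F : Type) [Field F] [IsAlgClosed F] [CharP F p]
    (red : integralClosure ℤ ℂ →+* F) (X : ∀ (H : Type) [Group H], Prop) (hX : Closed p X)
    (hS : ∀ (H : Type) [Group H] [Finite H], X H → X (H × H)) :
    (∀ ε : ℝ, 0 < ε → ∃ C : ℝ,
      Bd F (fun H _ => X H ∧ Reduced p H) (fun _ _ => numIrrBlock) (fun _ _ => nwt p red) C ε ∧
      Bd F (fun H _ => X H ∧ Reduced p H) (fun _ _ => nwt p red) (fun _ _ => numIrrBlock) C ε) ↔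
    ∀ (Γ : Type) [Group Γ] [Finite Γ] (G : Subgroup Γ) [G.Normal], X G → IsPGroup p (Γ ⧸ G) →
      KRB p red Γ := by
  rw [← Pool.Agent.X282.KRB.krb_ext red X hX, Pool.Agent.X282.KRB.krb_bawc red X hX,
    ← bawc_strong red X hX]
  constructor
  · intro h H _ _ hH hR
    exact bawc_of_approx red (fun H _ => X H ∧ Reduced p H)
      (fun L _ _ hL => ⟨hS L hL.1, reduced_sq L hL.2⟩) h H ⟨hH, hR⟩
  · intro h ε hε
    exact ⟨1, approx_of_bawc red (fun H _ => X H ∧ Reduced p H)
      (fun H _ _ hH => h H hH.1 hH.2) hε.le⟩

end Pool.Agent.Results.MP_6a3f1a_al.ApproximateWeights
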