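import Pool.Agent.X209.PJ.Sum

/-!
# The alternating-sum form of Alperin's weight conjecture and central characters

Let `Z` be a central subgroup of the finite group `G`, with Sylow `p`-subgroup `A`. We compare the
equations `∑_σ (-1)^|σ| k(B_σ, λ) = 0`, for the blocks `B` with a defect group which contains `A`
properly and the linear characters `λ` of `Z`, with the equations `∑_σ (-1)^|σ| k(B_σ) = 0` for the
quotients of `G` by subgroups of `A`.
-/

open scoped Classical
open Pool.Agent.X209.PJ

noncomputable section

namespace Pool.Agent.Results.MP_6a3f1a_al.CentralCharacters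

/-- (1) Group by group. (2) Globally: the alternating-sum form of the conjecture is equivalent to
its projective form. -/
theorem result (p : ℕ) [Fact p.Prime] (F : Type) [Field F] [CharP F p]
    (red : integralClosure ℤ ℂ →+* F) :
    (∀ (G : Type) [Group G] [Finite G] (Z A : Subgroup G), Z ≤ Subgroup.center G →
      IsSylowOf p A Z → (SumProj p red Z A ↔
        ∀ Y : Subgroup G, Y ≤ A → ∀ _ : Y.Normal,
          SumOrd p red (A.map (QuotientGroup.mk' Y)))) ∧
    ((∀ (G : Type) [Group G] [Finite G] (Z A : Subgroup G), Z ≤ Subgroup.center G →
      IsSylowOf p A Z → SumProj p red Z A) ↔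
      ∀ (G : Type) [Group G] [Finite G] (A : Subgroup G), A ≤ Subgroup.center G → IsCore p A →
        SumOrd p red A) := by
  refine ⟨?_, sum_global red⟩
  intro G _ _ Z A hZ hS
  exact sum_local red hZ hS

end Pool.Agent.Results.MP_6a3f1a_al.CentralCharacters
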