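import Pool.Agent.X282.KRB.Final

open scoped Classical

namespace Pool.Agent.Results.MP_6a3f1a_al.KnorrRobinsonExtensions

open Pool.Agent.Y63.NV

/-- Let `X` be a class of groups closed under isomorphisms, subgroups and quotients by normal
`p`-subgroups. If the blockwise alternating sum form of Alperin's weight conjecture (Knörr and
Robinson) holds for all blocks of all finite groups in `X` without normal subgroups of index `p` and
without nontrivial normal `p`-subgroups, then it holds for all blocks of all finite groups `Γ` which
have a normal subgroup `G` in `X` such that `Γ/G` is a `p`-group (and conversely). -/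
theorem result (p : ℕ) [Fact p.Prime] (F : Type) [Field F] [IsAlgClosed F] [CharP F p]
    (red : integralClosure ℤ ℂ →+* F) (X : ∀ (H : Type) [Group H], Prop) (hX : Closed p X) :
    (∀ (H : Type) [Group H] [Finite H], X H → Reduced p H → KRB p red H) ↔
    ∀ (Γ : Type) [Group Γ] [Finite Γ] (G : Subgroup Γ) [G.Normal], X G → IsPGroup p (Γ ⧸ G) →
      KRB p red Γ :=
  Pool.Agent.X282.KRB.krb_ext red X hX

end Pool.Agent.Results.MP_6a3f1a_al.KnorrRobinsonExtensions
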